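import Mathlib

namespace Pool.Agent.Work.MP_24a6f7_nt

/-- Case `f = m`, `e = m`. -/
lemma case_mm (p P A' N z w I J : ℤ) (hp : 3 ≤ p) (hodd : p % 2 = 1) (hA' : p + 1 ≤ A')
    (hP : P = (p - 1) * A' + 1) (hz : 1 ≤ z) (hI : 1 ≤ I)
    (hw : w = 2 * I * z) (hN : N = 2 * J * w)
    (eq : (N - 1) * (P + A') = p * P * (1 + z + w)) : False := by
  have hpP : p * P = (p - 1) * (P + A') + 1 := by rw [hP]; ring
  have hcop : IsCoprime (p * P) (P + A') := ⟨1, -(p - 1), by rw [hpP]; ring⟩
  have hdvd : p * P ∣ N - 1 := by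
    have h1 : p * P ∣ (N - 1) * (P + A') := ⟨1 + z + w, eq⟩
    exact hcop.dvd_of_dvd_mul_right h1
  obtain ⟨M, hM⟩ := hdvd
  have hwpos : 1 ≤ w := by rw [hw]; nlinarith
  have hPpos : 0 < P := by rw [hP]; nlinarith
  have hpPpos : 0 < p * P := by positivity
  have hMA : M * (P + A') = 1 + z + w := by
    have : (p * P) * (M * (P + A')) = (p * P) * (1 + z + w) := by
      rw [← eq, hM]; ring
    exact mul_left_cancel₀ hpPpos.ne' this
  have hApos : 0 < P + A' := by linarith
  have hMpos : 1 ≤ M := by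
    by_contra hcon
    have : M ≤ 0 := by omega
    nlinarith
  have hN1 : N - 1 = (p - 1) * (1 + z + w) + M := by
    rw [hM, hpP, ← hMA]; ring
  have hh : (2 * J - (p - 1)) * w = p + (p - 1) * z + M := by
    have : 2 * J * w = 1 + (p - 1) * (1 + z + w) + M := by linarith
    linarith
  obtain ⟨h', hh'⟩ : ∃ h', 2 * J - (p - 1) = 2 * h' := ⟨(2 * J - (p - 1)) / 2, by omega⟩
  have hh'pos : 1 ≤ h' := by
    by_contra hcon
    have : h' ≤ 0 := by omega
    have h3 : (2 * h') * w ≤ 0 := by nlinarith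
    rw [hh'] at hh
    nlinarith
  have hg : (4 * h' * I - (p - 1)) * z = p + M := by
    rw [hh', hw] at hh
    nlinarith
  obtain ⟨g', hg'⟩ : ∃ g', 4 * h' * I - (p - 1) = 2 * g' :=
    ⟨2 * h' * I - (p - 1) / 2, by
      have : p - 1 = 2 * ((p - 1) / 2) := by omega
      linarith⟩
  have hg'pos : 1 ≤ g' := by
    by_contra hcon
    have : g' ≤ 0 := by omega
    have h3 : (2 * g') * z ≤ 0 := by nlinarith
    rw [hg'] at hg
    nlinarith
  have h2z : 2 * z ≤ p + M := by
    rw [hg'] at hg
    nlinarith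
  have h2w : 2 * w ≤ p + (p - 1) * z + M := by
    rw [hh'] at hh
    nlinarith
  have hA : p ^ 2 + p + 1 ≤ P + A' := by rw [hP]; nlinarith
  have h4 : 4 * (M * (P + A')) ≤ 4 + (p + M) * (p + 3) := by
    rw [hMA]; nlinarith
  have h5 : 4 * (M * (p ^ 2 + p + 1)) ≤ 4 * (M * (P + A')) := by
    have := mul_le_mul_of_nonneg_left hA (by linarith : (0 : ℤ) ≤ M)
    linarith
  nlinarith

/-- Common facts for `f = m`. -/
lemma case_m_facts (p P A' N z w J E : ℤ) (hp : 3 ≤ p) (hodd : p % 2 = 1) (hA' : p + 1 ≤ A')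
    (hP : P = (p - 1) * A' + 1) (hz : 1 ≤ z) (hw : 1 ≤ w) (hE : 1 ≤ E)
    (hN : N = 2 * J * w)
    (eq : (N - 1) * (P + A') = p * P + z * E + w * (p * P)) :
    ∃ u h' : ℤ, 1 ≤ u ∧ 1 ≤ h' ∧ 2 * J = (p - 1) + 2 * h' ∧ 2 * h' * w = p + u ∧
      (P + A') * u = w + 1 + z * E ∧ N = (p - 1) * w + p + u := by
  have hpP : p * P = (p - 1) * (P + A') + 1 := by rw [hP]; ring
  have hPpos : 0 < P := by rw [hP]; nlinarith
  have hApos : 0 < P + A' := by linarith
  refine ⟨N - 1 - (p - 1) * (w + 1), (2 * J - (p - 1)) / 2, ?_⟩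
  have hAu : (P + A') * (N - 1 - (p - 1) * (w + 1)) = w + 1 + z * E := by
    have : (N - 1) * (P + A') = (w + 1) * ((p - 1) * (P + A') + 1) + z * E := by
      rw [eq, ← hpP]; ring
    linarith
  have hupos : 1 ≤ N - 1 - (p - 1) * (w + 1) := by
    by_contra hcon
    have h1 : N - 1 - (p - 1) * (w + 1) ≤ 0 := by omega
    have h2 : (P + A') * (N - 1 - (p - 1) * (w + 1)) ≤ 0 := by nlinarith
    nlinarith
  have h2h : 2 * ((2 * J - (p - 1)) / 2) = 2 * J - (p - 1) := by omega
  have hhw : 2 * ((2 * J - (p - 1)) / 2) * w = p + (N - 1 - (p - 1) * (w + 1)) := by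
    rw [h2h, hN]; ring
  have hhpos : 1 ≤ (2 * J - (p - 1)) / 2 := by
    by_contra hcon
    have h1 : (2 * J - (p - 1)) / 2 ≤ 0 := by omega
    have h2 : 2 * ((2 * J - (p - 1)) / 2) * w ≤ 0 := by nlinarith
    linarith
  refine ⟨hupos, hhpos, by omega, hhw, hAu, by ring⟩


/-- Bounds for `f = m`, `e ≤ m - 2`. -/
lemma case_m_low_bound (p P A' N z w E u h' : ℤ) (hp : 3 ≤ p) (hA' : p + 1 ≤ A')
    (hP : P = (p - 1) * A' + 1) (hw : 1 ≤ w) (hE : 1 ≤ E) (hEP : p * E ≤ P)
    (h2z : 2 * z ≤ N) (hu : 1 ≤ u) (hh : 1 ≤ h')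
    (hhw : 2 * h' * w = p + u) (hAu : (P + A') * u = w + 1 + z * E)
    (hN : N = (p - 1) * w + p + u) : u < p ∧ w < p ∧ N ≤ p ^ 2 := by
  have hPpos : 0 < P := by rw [hP]; nlinarith
  have h2w : 2 * w ≤ p + u := by nlinarith
  have h2N : 2 * N ≤ (p + u) * (p + 1) := by rw [hN]; nlinarith
  have hup : u < p := by
    by_contra hcon
    have hcon : p ≤ u := by omega
    -- 4 p A u ≤ 4p(w+1) + 2 N p E ≤ ...
    have h1 : 2 * (z * E) ≤ N * E := by nlinarith
    have h2 : 2 * p * (z * E) ≤ N * P := by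
      have hNpos : 0 ≤ N := by rw [hN]; nlinarith
      have : N * (p * E) ≤ N * P := mul_le_mul_of_nonneg_left hEP hNpos
      nlinarith
    have h3 : 4 * p * (z * E) ≤ (p + u) * (p + 1) * P := by nlinarith
    have h4 : 4 * p * ((P + A') * u) ≤ 4 * p * u + 4 * p + 2 * u * (p + 1) * P := by
      rw [hAu]
      have h5 : 4 * p * w ≤ 4 * p * u := by nlinarith
      have h6 : (p + u) * (p + 1) * P ≤ 2 * u * (p + 1) * P := by
        have : 0 ≤ (p + 1) * P := by positivity
        nlinarith
      nlinarith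
    have h7 : 4 * p * (P + A') ≤ 4 * p + 4 + 2 * (p + 1) * P := by
      by_contra hc
      have hc : 4 * p + 4 + 2 * (p + 1) * P + 1 ≤ 4 * p * (P + A') := by omega
      have : u * (4 * p + 4 + 2 * (p + 1) * P + 1) ≤ u * (4 * p * (P + A')) :=
        mul_le_mul_of_nonneg_left hc (by linarith)
      nlinarith
    nlinarith
  have hwp : w < p := by linarith
  refine ⟨hup, hwp, ?_⟩
  have h1 : (p - 1) * w ≤ (p - 1) * (p - 1) := by nlinarith
  rw [hN]
  nlinarith

lemma case_m_e0 (p P A' N z w u : ℤ) (hp : 3 ≤ p) (hA' : p + 1 ≤ A')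
    (hP : P = (p - 1) * A' + 1) (h2z : 2 * z ≤ N) (hu : 1 ≤ u)
    (hAu : (P + A') * u = w + 1 + z * 1) (hwp : w < p) (hNp : N ≤ p ^ 2) : False := by
  have hA : p ^ 2 + p + 1 ≤ P + A' := by rw [hP]; nlinarith
  have h1 : P + A' ≤ (P + A') * u := by nlinarith
  nlinarith

lemma case_m_e1 (p P A' N z w u : ℤ) (hp : 3 ≤ p)
    (hdich : (P = p ^ 2 ∧ A' = p + 1) ∨ (p ^ 3 ≤ P ∧ p ^ 2 + p + 1 ≤ A'))
    (hw : 1 ≤ w) (hu : 1 ≤ u)
    (h2z : 2 * z ≤ N) (hN : N = (p - 1) * w + p + u)
    (hAu : (P + A') * u = w + 1 + z * p) (hup : u < p) (hwp : w < p) (hNp : N ≤ p ^ 2) :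
    False := by
  rcases hdich with ⟨hP, hA⟩ | ⟨hP, hA⟩
  · subst hP hA
    have h1 : w + 1 - u = p * ((p + 1) * u - z) := by nlinarith
    have h2 : (p + 1) * u - z = 0 := by
      by_contra hne
      rcases lt_or_gt_of_ne hne with h | h
      · have : (p + 1) * u - z ≤ -1 := by omega
        nlinarith
      · have : 1 ≤ (p + 1) * u - z := by omega
        nlinarith
    rw [h2] at h1
    have h3 : u = w + 1 := by linarith
    subst h3
    nlinarith
  · have h1 : p ^ 3 + p ^ 2 + p + 1 ≤ P + A' := by linarith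
    have h0 : 0 < p ^ 3 + p ^ 2 + p + 1 := by positivity
    have h2 : P + A' ≤ (P + A') * u := le_mul_of_one_le_right (by linarith) hu
    have h3 : 2 * (z * p) ≤ p ^ 3 := by nlinarith
    nlinarith

/-- Case `f = m`, `e = m - 1`. -/
lemma case_m_mid (p P A' N z w J h' Z' : ℤ) (hp : 3 ≤ p) (hodd : p % 2 = 1)
    (hdich : (P = p ^ 2 ∧ A' = p + 1) ∨ (p ^ 3 ≤ P ∧ p ^ 2 + p + 1 ≤ A'))
    (hA' : p + 1 ≤ A')
    (hP : P = (p - 1) * A' + 1) (hw : 1 ≤ w) (hz : 1 ≤ z)
    (hJ : 2 * J = (p - 1) + 2 * h') (hh : 1 ≤ h') (hN : N = 2 * J * w)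
    (hNz : N = 2 * Z' * z) (hZ' : 1 ≤ Z')
    (hzw : z ≤ w ∨ ∃ G', 1 ≤ G' ∧ z = 2 * G' * w)
    (eq : (N - 1) * (P + A') = p * P + z * P + w * (p * P)) : False := by
  have hPpos : 0 < P := by rw [hP]; nlinarith
  have hcop : IsCoprime P (P + A') := ⟨1 + (p - 1), -(p - 1), by rw [hP]; ring⟩
  have hdvd : P ∣ N - 1 := by
    have h1 : P ∣ (N - 1) * (P + A') := ⟨p + z + w * p, by rw [eq]; ring⟩
    exact hcop.dvd_of_dvd_mul_right h1
  obtain ⟨t, ht⟩ := hdvd
  have htA : t * (P + A') = p + z + w * p := by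
    have : P * (t * (P + A')) = P * (p + z + w * p) := by
      have h0 : P * (p + z + w * p) = p * P + z * P + w * (p * P) := by ring
      rw [h0, ← eq, ht]; ring
    exact mul_left_cancel₀ hPpos.ne' this
  have hApos : 0 < P + A' := by linarith
  have htpos : 1 ≤ t := by
    by_contra hcon
    have : t ≤ 0 := by omega
    nlinarith
  have hPsq : p ^ 2 ≤ P := by
    rcases hdich with ⟨h, _⟩ | ⟨h, _⟩
    · linarith
    · nlinarith
  rcases hzw with hzw | ⟨G', hG', hzG⟩
  · -- z ≤ w
    have h1 : (p + 1) * w ≤ N := by rw [hN]; nlinarith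
    have h2 : t * A' ≤ p + 1 := by nlinarith
    have h3 : t = 1 := by
      have : t ≤ 1 := by
        by_contra hcon
        have : 2 ≤ t := by omega
        nlinarith
      omega
    subst h3
    have h4 : A' = p + 1 := by linarith
    have h5 : P = p ^ 2 := by rw [hP, h4]; ring
    subst h5
    subst h4
    have h6 : (p + 1) * w = p ^ 2 + 1 := by nlinarith
    have h7 : (p + 1) ∣ 2 := ⟨w - (p - 1), by linarith⟩
    have := Int.le_of_dvd (by norm_num) h7
    linarith
  · -- z = 2 G' w
    have hmain : w * ((P + A') * (2 * Z' * (2 * G')) - P * (2 * G' + p)) = P + A' + p * P := by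
      have h1 : t * P + 1 = 2 * Z' * (2 * G' * w) := by rw [← hzG, ← hNz]; linarith
      have h2 : t * (P + A') = p + (2 * G' + p) * w := by rw [htA, hzG]; ring
      have h3 : (t * P + 1) * (P + A') = P * (t * (P + A')) + (P + A') := by ring
      rw [h2, h1] at h3
      linarith
    have hB : P + A' + p * P = 1 + p + p ^ 2 * A' := by rw [hP]; ring
    obtain ⟨δ, hδ⟩ : ∃ δ, δ = p + 2 * G' - 2 * Z' * (2 * G') := ⟨_, rfl⟩
    have hcoef : (P + A') * (2 * Z' * (2 * G')) - P * (2 * G' + p)
        = A' * (2 * Z' * (2 * G') - (p - 1) * δ) - δ := by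
      rw [hδ, hP]; ring
    rw [hcoef, hB] at hmain
    have hApos' : 0 < A' := by linarith
    have hNN : 2 * Z' * (2 * G') * w = t * P + 1 := by
      have : N = 2 * Z' * (2 * G') * w := by rw [hNz, hzG]; ring
      linarith
    rcases le_or_gt δ 0 with hδ0 | hδ0
    · -- δ ≤ 0
      have h1 : A' * (t * P + 1) ≤ 1 + p + p ^ 2 * A' := by
        have hδw : 0 ≤ w * (-(δ * ((p - 1) * A' + 1))) := by
          have : 0 ≤ -(δ * ((p - 1) * A' + 1)) := by
            have : 0 < (p - 1) * A' + 1 := by nlinarith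
            nlinarith
          positivity
        have h2 : w * (A' * (2 * Z' * (2 * G') - (p - 1) * δ) - δ)
            = A' * (2 * Z' * (2 * G') * w) + w * (-(δ * ((p - 1) * A' + 1))) := by ring
        rw [h2, hNN] at hmain
        linarith
      have h3 : t * P = p ^ 2 := by
        have h4 : P ≤ t * P := by nlinarith
        have h5 : t * P ≤ p ^ 2 := by
          by_contra hcon
          have : p ^ 2 + 1 ≤ t * P := by omega
          nlinarith
        linarith
      rw [h3] at hNN
      obtain ⟨q, hq⟩ : ∃ q, p = 2 * q + 1 := ⟨p / 2, by omega⟩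
      have h6 : 4 * (Z' * G' * w) = 4 * (q ^ 2 + q) + 2 := by
        have : 4 * (Z' * G' * w) = 2 * Z' * (2 * G') * w := by ring
        rw [this, hNN, hq]; ring
      omega
    · -- δ ≥ 1
      have hRpos : 0 < 1 + p + p ^ 2 * A' := by positivity
      have hcpos : 0 < A' * (2 * Z' * (2 * G') - (p - 1) * δ) - δ := by
        by_contra hcon
        have : A' * (2 * Z' * (2 * G') - (p - 1) * δ) - δ ≤ 0 := by omega
        nlinarith
      have h1 : 0 < 2 * Z' * (2 * G') - (p - 1) * δ := by
        by_contra hcon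
        have : 2 * Z' * (2 * G') - (p - 1) * δ ≤ 0 := by omega
        nlinarith
      have hδ1 : δ = 1 := by
        by_contra hne
        have hδ2 : 2 ≤ δ := by omega
        have h2 : 2 * Z' * (2 * G') = p + 2 * G' - δ := by linarith
        have h3 : 2 * (2 * G') ≤ 2 * Z' * (2 * G') := by nlinarith
        have h4 : p * δ < p + 2 * G' := by nlinarith
        nlinarith
      subst hδ1
      have h2 : 2 * Z' * (2 * G') - (p - 1) * 1 = 2 * G' := by linarith
      rw [h2] at hmain
      have h3 : A' * (w * (2 * G') - p ^ 2) = 1 + p + w := by linarith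
      obtain ⟨g, hg⟩ : ∃ g, g = w * (2 * G') - p ^ 2 := ⟨_, rfl⟩
      rw [← hg] at h3
      have hgpos : 1 ≤ g := by
        by_contra hcon
        have : g ≤ 0 := by omega
        nlinarith
      have h2w : 2 * w ≤ p ^ 2 + g := by
        have : w * (2 * G') = p ^ 2 + g := by linarith
        nlinarith
      have h4 : g * (2 * A' - 1) ≤ 2 + 2 * p + p ^ 2 := by nlinarith
      rcases hdich with ⟨hP1, hA1⟩ | ⟨hP1, hA1⟩
      · subst hA1
        have h5 : w = (p + 1) * (g - 1) := by linarith
        have h6 : (p + 1) ∣ g + 1 := by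
          have : w * (2 * G') = p ^ 2 + g := by linarith
          rw [h5] at this
          exact ⟨(g - 1) * (2 * G') - (p - 1), by linarith⟩
        have h7 := Int.le_of_dvd (by linarith) h6
        nlinarith
      · nlinarith


/-- Size bound when both exponents are at most `m - 1`. -/
lemma low_bound (p P A' N X : ℤ) (hPpos : 0 < P) (hA' : 1 ≤ A') (hN2 : 2 ≤ N)
    (hX : 4 * X ≤ 3 * N * P) (eq : (N - 1) * (P + A') = p * P + X) : N < 4 * (p + 1) := by
  have h1 : N * P + 4 * (N - 1) * A' ≤ 4 * (p + 1) * P := by nlinarith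
  have h2 : 0 < 4 * (N - 1) * A' := by
    have : 0 < N - 1 := by linarith
    positivity
  have h3 : N * P < 4 * (p + 1) * P := by linarith
  exact lt_of_mul_lt_mul_right h3 hPpos.le

lemma N_gt (p P A' N X : ℤ) (hPpos : 0 < P) (hA' : 1 ≤ A')
    (hP : P = (p - 1) * A' + 1) (hX : 1 ≤ X)
    (eq : (N - 1) * (P + A') = p * P + X) : p < N := by
  by_contra hcon
  have hcon : N ≤ p := by omega
  have h1 : (N - 1) * (P + A') ≤ (p - 1) * (P + A') := by
    apply mul_le_mul_of_nonneg_right <;> linarith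
  have h2 : p * P = (p - 1) * (P + A') + 1 := by rw [hP]; ring
  linarith

/-- `e = 1`, `f = 1`. -/
lemma low_e1_f1 (p P A' N M z w : ℤ) (hp : 3 ≤ p) (hA' : p + 1 ≤ A')
    (hP : P = (p - 1) * A' + 1) (hM : 1 ≤ M) (hMo : M % 2 = 1) (hNM : N = 1 + p * M)
    (hN4 : N < 4 * (p + 1))
    (hzw : 4 * (z + w) ≤ 3 * N) (eq : M * (P + A') = P + z + w) : False := by
  have hM4 : M ≤ 4 := by
    by_contra hcon
    have : 5 ≤ M := by omega
    nlinarith
  have : M = 1 ∨ M = 3 := by omega
  rcases this with rfl | rfl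
  · nlinarith
  · nlinarith

/-- `e = 1`, `f ≥ 2`; here `F = p ^ (f - 1)`, `P = p ^ (m - 1)`. -/
lemma low_e1_f2 (p P A' A'' P' N M z w F F' : ℤ) (hp : 3 ≤ p) (hA' : p + 1 ≤ A')
    (hP : P = (p - 1) * A' + 1) (hM : 1 ≤ M) (hMo : M % 2 = 1) (hNM : N = 1 + p * M)
    (hN4 : N < 4 * (p + 1)) (hPP' : P = p * P') (hAA : A' = 1 + p * A'')
    (hdich : (A'' = 1 ∧ P = p ^ 2) ∨ (p + 1 ≤ A'' ∧ p ∣ A'' - 1))
    (hz1 : 1 ≤ z) (hw1 : 1 ≤ w) (hz3 : z ≠ 3)
    (h2z : 2 * z ≤ N) (h2w : 2 * w ≤ N) (hZ : z ∣ N) (hF : F = p * F') (hF' : F' = 1 ∨ p ∣ F')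
    (hFP : p * F ≤ P) (hFpos : 1 ≤ F')
    (eq : M * (P + A') = P + z + w * F) : P = p ^ 2 ∧ N = p + 1 := by
  have hM4 : M ≤ 4 := by
    by_contra hcon
    have : 5 ≤ M := by omega
    nlinarith
  have hdvd : p ∣ M - z := by
    refine ⟨P' + w * F' - M * (P' + A''), ?_⟩
    have : M * (p * P' + (1 + p * A'')) = p * P' + z + w * (p * F') := by
      rw [← hPP', ← hAA, ← hF]; exact eq
    linarith
  have hM13 : M = 1 ∨ M = 3 := by omega
  rcases hM13 with rfl | rfl
  · -- M = 1
    have hN : N = p + 1 := by linarith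
    refine ⟨?_, hN⟩
    obtain ⟨q, hq⟩ := hdvd
    have hq0 : q = 0 := by
      by_contra hne
      rcases lt_or_gt_of_ne hne with h | h
      · have : q ≤ -1 := by omega
        nlinarith
      · have : 1 ≤ q := by omega
        nlinarith
    rw [hq0] at hq
    have hz : z = 1 := by linarith
    subst hz
    have h1 : p * A'' = p * (w * F') := by
      have : 1 * (P + A') = P + 1 + w * F := eq
      rw [hAA, hF] at this
      linarith
    have h2 : A'' = w * F' := mul_left_cancel₀ (by linarith : p ≠ 0) h1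
    rcases hdich with ⟨_, h⟩ | ⟨h3, h4⟩
    · exact h
    · exfalso
      rcases hF' with h5 | h5
      · rw [h5] at h2
        linarith
      · have h6 : p ∣ A'' := by rw [h2]; exact Dvd.dvd.mul_left h5 w
        have h7 : p ∣ 1 := by
          have := dvd_sub h6 h4
          simpa using this
        have := Int.le_of_dvd one_pos h7
        linarith
  · -- M = 3
    exfalso
    obtain ⟨q, hq⟩ := hdvd
    have hN : N = 3 * p + 1 := by linarith
    have hq1 : q = -1 := by
      by_contra hne
      rcases lt_or_gt_of_ne hne with h | h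
      · have : q ≤ -2 := by omega
        nlinarith
      · have h0 : 0 ≤ q := by omega
        rcases eq_or_lt_of_le h0 with h1 | h1
        · rw [← h1] at hq
          exact hz3 (by linarith)
        · have : 1 ≤ q := by omega
          nlinarith
    rw [hq1] at hq
    have hz : z = p + 3 := by linarith
    obtain ⟨c, hc⟩ := hZ
    have hc1 : z * (3 - c) = 8 := by
      rw [hN] at hc
      have : 3 * p + 1 = 3 * z - 8 := by rw [hz]; ring
      rw [this] at hc
      linarith
    have hzdvd : z ∣ 8 := ⟨3 - c, hc1.symm⟩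
    have hzle := Int.le_of_dvd (by norm_num) hzdvd
    have hp5 : 5 ≤ p := by linarith
    have hp5' : p = 5 := by linarith
    subst hp5'
    have hz8 : z = 8 := by linarith
    subst hz8
    have hw8 : w ≤ 8 := by linarith
    have h3 : w * F ≤ 8 * F := by
      have : 0 ≤ F := by rw [hF]; linarith
      nlinarith
    linarith

/-- `e = 0`, `f = 0`. -/
lemma low_e0_f0 (p P A' N z w : ℤ) (hp : 3 ≤ p) (hA' : p + 1 ≤ A')
    (hP : P = (p - 1) * A' + 1) (hpN : p < N)
    (hN4 : N < 4 * (p + 1))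
    (hzw : 4 * (z + w) ≤ 3 * N) (eq : (N - 1) * (P + A') = p * P + z + w) : False := by
  have h1 : (N - 1) * (P + A') = p * P + (N - p) * (P + A') - 1 := by rw [hP]; ring
  have h2 : (N - p) * (P + A') = 1 + z + w := by linarith
  have h3 : P + A' ≤ (N - p) * (P + A') := by
    have : 1 ≤ N - p := by linarith
    have h0 : 0 ≤ P + A' := by rw [hP]; nlinarith
    nlinarith
  have h4 : p ^ 2 + p + 1 ≤ P + A' := by rw [hP]; nlinarith
  nlinarith

/-- `e = 0`, `f ≥ 1`; here `F = p ^ (f - 1)`. -/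
lemma low_e0_f1 (p P A' A'' P' N z w F Z : ℤ) (hp : 3 ≤ p) (hodd : p % 2 = 1) (hA' : p + 1 ≤ A')
    (hP : P = (p - 1) * A' + 1) (hPP' : P = p * P') (hAA : A' = 1 + p * A'')
    (hpN : p < N) (hN4 : N < 4 * (p + 1)) (hNpow : ∃ j : ℕ, N = 2 ^ j)
    (hz1 : 1 ≤ z) (hzpar : z = 1 ∨ z % 2 = 0) (hNpar : N % 2 = 0)
    (hw1 : 1 ≤ w) (h2z : 2 * z ≤ N) (h2w : 2 * w ≤ N) (hZ : N = Z * z) (hZ2 : 2 ≤ Z)
    (hF : F = 1 ∨ p ∣ F) (hF1 : 1 ≤ F) (hFP : p * F ≤ P)
    (eq : (N - 1) * (P + A') = p * P + z + w * (p * F)) : False := by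
  have hPpos : 0 < P := by rw [hP]; nlinarith
  have hdvd : p ∣ N - 1 - z := by
    refine ⟨P + w * F - (N - 1) * (P' + A''), ?_⟩
    have : (N - 1) * (p * P' + (1 + p * A'')) = p * P + z + w * (p * F) := by
      rw [← hPP', ← hAA]; exact eq
    linarith
  obtain ⟨s, hs⟩ := hdvd
  have hs0 : 1 ≤ s := by
    by_contra hcon
    have h1 : s ≤ 0 := by omega
    have h2 : p * s ≤ 0 := by nlinarith
    have h3 : (Z - 1) * z ≤ 1 := by
      have : (Z - 1) * z = N - z := by rw [hZ]; ring
      linarith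
    have h4 : z ≤ 1 := by nlinarith
    have h5 : z = 1 := by omega
    subst h5
    linarith
  have hs4 : s ≤ 4 := by
    by_contra hcon
    have : 5 ≤ s := by omega
    nlinarith
  have hmain : (z + s) * A' + (s - 1) * P = w * F := by
    have h1 : N - 1 = z + p * s := by linarith
    rw [h1] at eq
    have h2 : (z + p * s) * (P + A') = z + p * ((z + s) * A' + s * P) := by
      have : P + A' = 1 + p * A' := by rw [hP]; ring
      calc (z + p * s) * (P + A') = z * (P + A') + p * s * (P + A') := by ring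
        _ = z * (1 + p * A') + p * s * (P + A') := by rw [this]
        _ = z + p * ((z + s) * A' + s * P) := by ring
    rw [h2] at eq
    have h3 : p * ((z + s) * A' + s * P) = p * (P + w * F) := by linarith
    have h4 := mul_left_cancel₀ (by linarith : p ≠ 0) h3
    linarith
  rcases hF with hF | hF
  · rw [hF] at hmain
    nlinarith
  · have hdvd2 : p ∣ z + s := by
      obtain ⟨c, hc⟩ := hF
      refine ⟨w * c - (z + s) * A'' - (s - 1) * P', ?_⟩
      have : (z + s) * (1 + p * A'') + (s - 1) * (p * P') = w * (p * c) := by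
        rw [← hAA, ← hPP', ← hc]; exact hmain
      linarith
    obtain ⟨q, hq⟩ := hdvd2
    have hq1 : 1 ≤ q := by
      by_contra hcon
      have : q ≤ 0 := by omega
      nlinarith
    rcases hzpar with hz | hz
    · subst hz
      have hs24 : s = 2 ∨ s = 4 := by
        have : (N - 1 - 1) % 2 = 0 := by omega
        rw [hs] at this
        rcases (by omega : s = 1 ∨ s = 2 ∨ s = 3 ∨ s = 4) with h | h | h | h <;> subst h <;> omega
      rcases hs24 with h | h
      · subst h
        -- 3 = p q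
        have hp3 : p = 3 := by
          have : p ∣ 3 := ⟨q, by linarith⟩
          have := Int.le_of_dvd (by norm_num) this
          omega
        subst hp3
        have hN8 : N = 8 := by linarith
        subst hN8
        nlinarith
      · subst h
        have hpq : p * q = 5 := by linarith
        have hp5 : p = 5 := by
          have h5 : p ∣ 5 := ⟨q, by linarith⟩
          have := Int.le_of_dvd (by norm_num) h5
          interval_cases p <;> omega
        subst hp5
        have hN22 : N = 22 := by linarith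
        obtain ⟨j, hj⟩ := hNpow
        have hj5 : j < 5 := by
          by_contra hcon
          have : (2 : ℤ) ^ 5 ≤ 2 ^ j := pow_le_pow_right₀ (by norm_num) (by omega)
          linarith
        interval_cases j <;> omega
    · have hs13 : s = 1 ∨ s = 3 := by
        rcases (by omega : s = 1 ∨ s = 2 ∨ s = 3 ∨ s = 4) with h | h | h | h <;> subst h <;> omega
      rcases hs13 with h | h
      · subst h
        -- z = p q - 1 divides p + 1
        have hzd : z ∣ p + 1 := ⟨Z - 1, by linarith⟩
        have hzle := Int.le_of_dvd (by linarith) hzd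
        have hq1' : q = 1 := by
          by_contra hne
          have : 2 ≤ q := by omega
          nlinarith
        subst hq1'
        have hz' : z = p - 1 := by linarith
        have hz2 : z ∣ 2 := by
          have h1 : z ∣ (p + 1) - z := dvd_sub hzd (dvd_refl z)
          have h2 : (p + 1) - z = 2 := by linarith
          rwa [h2] at h1
        have := Int.le_of_dvd (by norm_num) hz2
        have hp3 : p = 3 := by omega
        subst hp3
        have hN6 : N = 6 := by linarith
        obtain ⟨j, hj⟩ := hNpow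
        have hj5 : j < 3 := by
          by_contra hcon
          have : (2 : ℤ) ^ 3 ≤ 2 ^ j := pow_le_pow_right₀ (by norm_num) (by omega)
          linarith
        interval_cases j <;> omega
      · subst h
        have hzd : z ∣ 3 * p + 1 := ⟨Z - 1, by linarith⟩
        have hz3 : z < p + 3 := by linarith
        have hq2 : q ≤ 2 := by
          by_contra hcon
          have : 3 ≤ q := by omega
          nlinarith
        have hq12 : q = 1 ∨ q = 2 := by omega
        rcases hq12 with h | h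
        · subst h
          have hz' : z = p - 3 := by linarith
          have h10 : z ∣ 10 := by
            have h1 : z ∣ (3 * p + 1) - z * 3 := dvd_sub hzd (Dvd.intro 3 rfl)
            have h2 : (3 * p + 1) - z * 3 = 10 := by linarith
            rwa [h2] at h1
          have hle := Int.le_of_dvd (by norm_num) h10
          obtain ⟨j, hj⟩ := hNpow
          have hNz : N = 4 * z + 10 := by linarith
          have hj5 : j < 6 := by
            by_contra hcon
            have : (2 : ℤ) ^ 6 ≤ 2 ^ j := pow_le_pow_right₀ (by norm_num) (by omega)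
            linarith
          interval_cases j <;> omega
        · subst h
          have hp5 : p < 6 := by linarith
          have : p = 3 ∨ p = 5 := by omega
          rcases this with h | h
          · subst h
            omega
          · subst h
            omega

end Pool.Agent.Work.MP_24a6f7_nt
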