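import Mathlib
import Pool.Agent.Work.MP_24a6f7_nt.Core

namespace Pool.Agent.Work.MP_24a6f7_nt

open Finset

lemma pow_two_facts (k c : ℕ) (hc : c ≤ k) :
    (2 : ℤ) ^ (k + 1) = 2 * 2 ^ (k - c) * 2 ^ c := by
  have : k + 1 = 1 + (k - c) + c := by omega
  conv_lhs => rw [this]
  rw [pow_add, pow_add]
  ring

lemma coprime_dvd (p P A' N : ℤ) (b : ℕ) (hP : P = (p - 1) * A' + 1)
    (h : p ^ b ∣ (N - 1) * (P + A')) : p ^ b ∣ N - 1 := by
  have hcop : IsCoprime p (P + A') := ⟨-A', 1, by rw [hP]; ring⟩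
  have hcop2 : IsCoprime (p ^ b) (P + A') := hcop.pow_left
  exact hcop2.dvd_of_dvd_mul_right h

theorem core (n k p a b c d : ℕ) (hp : 3 ≤ p) (hodd : p % 2 = 1) (ha : a ≤ k) (hc : c ≤ k)
    (hbd : b ≤ d) (hd : d ≤ n + 3) (hne : b = d → a < c)
    (eq : ((2 : ℤ) ^ (k + 1) - 1) * (∑ i ∈ range (n + 3), (p : ℤ) ^ i)
      = (p : ℤ) ^ (n + 3) + 2 ^ a * (p : ℤ) ^ b + 2 ^ c * (p : ℤ) ^ d) :
    n = 0 ∧ (p : ℤ) + 1 = 2 ^ (k + 1) := by
  obtain ⟨q, hq⟩ : ∃ q : ℤ, q = (p : ℤ) := ⟨_, rfl⟩
  rw [← hq] at eq ⊢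
  have hq3 : 3 ≤ q := by rw [hq]; exact_mod_cast hp
  have hqodd : q % 2 = 1 := by rw [hq]; omega
  have hq0 : 0 < q := by linarith
  -- P, A'
  obtain ⟨P, hPdef⟩ : ∃ P : ℤ, P = q ^ (n + 2) := ⟨_, rfl⟩
  obtain ⟨A', hA'def⟩ : ∃ A' : ℤ, A' = ∑ i ∈ range (n + 2), q ^ i := ⟨_, rfl⟩
  obtain ⟨P', hP'def⟩ : ∃ P' : ℤ, P' = q ^ (n + 1) := ⟨_, rfl⟩
  obtain ⟨A'', hA''def⟩ : ∃ A'' : ℤ, A'' = ∑ i ∈ range (n + 1), q ^ i := ⟨_, rfl⟩
  have hPP' : P = q * P' := by rw [hPdef, hP'def]; ring
  have hAA : A' = 1 + q * A'' := by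
    rw [hA'def, hA''def, sum_range_succ', mul_sum]
    simp only [pow_succ, pow_zero]
    rw [add_comm]
    congr 1
    exact sum_congr rfl (fun i _ => by ring)
  have hP : P = (q - 1) * A' + 1 := by
    have := mul_geom_sum q (n + 2)
    rw [hPdef, hA'def, this]; ring
  have hA''pos : 1 ≤ A'' := by
    rw [hA''def, sum_range_succ']
    have : 0 ≤ ∑ i ∈ range n, q ^ (i + 1) := sum_nonneg (fun i _ => by positivity)
    simp only [pow_zero]
    linarith
  have hA' : q + 1 ≤ A' := by rw [hAA]; nlinarith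
  have hsum : ∑ i ∈ range (n + 3), q ^ i = P + A' := by
    rw [sum_range_succ, ← hA'def, ← hPdef]; ring
  have hpm : q ^ (n + 3) = q * P := by rw [hPdef]; ring
  rw [hsum, hpm] at eq
  have hPpos : 0 < P := by rw [hPdef]; positivity
  have hdich'' : (A'' = 1 ∧ P = q ^ 2) ∨ (q + 1 ≤ A'' ∧ q ∣ A'' - 1) := by
    rcases Nat.eq_zero_or_pos n with hn | hn
    · left
      subst hn
      constructor
      · rw [hA''def]; simp
      · rw [hPdef]
    · right
      obtain ⟨n', rfl⟩ : ∃ n', n = n' + 1 := ⟨n - 1, by omega⟩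
      have h1 : A'' = 1 + q * ∑ i ∈ range (n' + 1), q ^ i := by
        rw [hA''def, sum_range_succ', mul_sum]
        simp only [pow_succ, pow_zero]
        rw [add_comm]
        congr 1
        exact sum_congr rfl (fun i _ => by ring)
      have h2 : 1 ≤ ∑ i ∈ range (n' + 1), q ^ i := by
        rw [sum_range_succ']
        have : 0 ≤ ∑ i ∈ range n', q ^ (i + 1) := sum_nonneg (fun i _ => by positivity)
        simp only [pow_zero]
        linarith
      constructor
      · rw [h1]; nlinarith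
      · exact ⟨∑ i ∈ range (n' + 1), q ^ i, by rw [h1]; ring⟩
  have hdich : (P = q ^ 2 ∧ A' = q + 1) ∨ (q ^ 3 ≤ P ∧ q ^ 2 + q + 1 ≤ A') := by
    rcases hdich'' with ⟨h1, h2⟩ | ⟨h1, h2⟩
    · left
      exact ⟨h2, by rw [hAA, h1]; ring⟩
    · right
      have h3 : q ^ 2 + q + 1 ≤ A' := by rw [hAA]; nlinarith
      refine ⟨?_, h3⟩
      rw [hP]; nlinarith
  obtain ⟨N, hNdef⟩ : ∃ N : ℤ, N = 2 ^ (k + 1) := ⟨_, rfl⟩
  obtain ⟨z, hzdef⟩ : ∃ z : ℤ, z = 2 ^ a := ⟨_, rfl⟩
  obtain ⟨w, hwdef⟩ : ∃ w : ℤ, w = 2 ^ c := ⟨_, rfl⟩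
  have hNw : N = 2 * 2 ^ (k - c) * w := by rw [hNdef, hwdef]; exact pow_two_facts k c hc
  have hNz : N = 2 * 2 ^ (k - a) * z := by rw [hNdef, hzdef]; exact pow_two_facts k a ha
  rw [← hNdef, ← hzdef, ← hwdef] at eq
  rw [← hNdef]
  have hz1 : 1 ≤ z := by rw [hzdef]; exact one_le_pow₀ (by norm_num)
  have hw1 : 1 ≤ w := by rw [hwdef]; exact one_le_pow₀ (by norm_num)
  have hJ1 : (1 : ℤ) ≤ 2 ^ (k - c) := one_le_pow₀ (by norm_num)
  have hZ1 : (1 : ℤ) ≤ 2 ^ (k - a) := one_le_pow₀ (by norm_num)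
  have h2w : 2 * w ≤ N := by rw [hNw]; nlinarith
  have h2z : 2 * z ≤ N := by rw [hNz]; nlinarith
  have hE1 : 1 ≤ q ^ b := one_le_pow₀ (by linarith)
  have hF1 : 1 ≤ q ^ d := one_le_pow₀ (by linarith)
  have hN2 : 2 ≤ N := by linarith
  rcases Nat.lt_or_ge d (n + 3) with hdlt | hdge
  · -- d ≤ n + 2
    have hFP : q ^ d ≤ P := by
      rw [hPdef]; exact pow_le_pow_right₀ (by linarith) (by omega)
    have hX : 4 * (z * q ^ b + w * q ^ d) ≤ 3 * N * P := by
      rcases Nat.eq_or_lt_of_le hbd with hbd' | hbd'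
      · have hac := hne hbd'
        have h2zw : 2 * z ≤ w := by
          rw [hzdef, hwdef]
          calc (2 : ℤ) * 2 ^ a = 2 ^ (a + 1) := by ring
            _ ≤ 2 ^ c := pow_le_pow_right₀ (by norm_num) (by omega)
        rw [hbd']
        have h1 : 4 * (z + w) ≤ 3 * N := by linarith
        calc 4 * (z * q ^ d + w * q ^ d) = 4 * (z + w) * q ^ d := by ring
          _ ≤ 3 * N * q ^ d := mul_le_mul_of_nonneg_right h1 (by linarith)
          _ ≤ 3 * N * P := mul_le_mul_of_nonneg_left hFP (by linarith)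
      · have h1 : q * q ^ b ≤ P := by
          calc q * q ^ b = q ^ (b + 1) := by ring
            _ ≤ q ^ d := pow_le_pow_right₀ (by linarith) (by omega)
            _ ≤ P := hFP
        have h2 : 3 * q ^ b ≤ P := by nlinarith
        have h3 : 2 * z * q ^ b ≤ N * q ^ b := mul_le_mul_of_nonneg_right h2z (by linarith)
        have h4 : 2 * w * q ^ d ≤ N * P := mul_le_mul h2w hFP (by linarith) (by linarith)
        have h5 : N * (3 * q ^ b) ≤ N * P := mul_le_mul_of_nonneg_left h2 (by linarith)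
        nlinarith [mul_pos (by linarith : 0 < N) hPpos]
    have eq' : (N - 1) * (P + A') = q * P + (z * q ^ b + w * q ^ d) := by rw [eq]; ring
    have hN4 : N < 4 * (q + 1) := low_bound q P A' N _ hPpos (by linarith) hN2 hX eq'
    have hpN : q < N := N_gt q P A' N _ hPpos (by linarith) hP
      (by nlinarith [mul_pos (by linarith : 0 < z) (by linarith : 0 < q ^ b),
        mul_pos (by linarith : 0 < w) (by linarith : 0 < q ^ d)]) eq'
    have hNeven : N % 2 = 0 := by rw [hNw]; omega
    -- q^b divides N - 1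
    have hdvdb : q ^ b ∣ N - 1 := by
      apply coprime_dvd q P A' N b hP
      rw [eq]
      have h1 : q ^ b ∣ q * P := by
        rw [hPdef, ← pow_succ']
        exact pow_dvd_pow q (by omega)
      have h2 : q ^ b ∣ w * q ^ d := Dvd.dvd.mul_left (pow_dvd_pow q hbd) w
      have h3 : q ^ b ∣ z * q ^ b := Dvd.intro_left z rfl
      exact dvd_add (dvd_add h1 h3) h2
    rcases (by omega : b = 0 ∨ b = 1 ∨ 2 ≤ b) with hb | hb | hb
    · -- b = 0
      exfalso
      subst hb
      rcases Nat.eq_zero_or_pos d with hd0 | hd0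
      · subst hd0
        have hac := hne rfl
        have h2zw : 2 * z ≤ w := by
          rw [hzdef, hwdef]
          calc (2 : ℤ) * 2 ^ a = 2 ^ (a + 1) := by ring
            _ ≤ 2 ^ c := pow_le_pow_right₀ (by norm_num) (by omega)
        refine low_e0_f0 q P A' N z w hq3 hA' hP hpN hN4 (by linarith) ?_
        rw [eq]; ring
      · obtain ⟨d', rfl⟩ : ∃ d', d = d' + 1 := ⟨d - 1, by omega⟩
        have hF : q ^ d' = 1 ∨ q ∣ q ^ d' := by
          rcases Nat.eq_zero_or_pos d' with h | h
          · left; rw [h]; simp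
          · right; exact dvd_pow_self q (by omega)
        have hzpar : z = 1 ∨ z % 2 = 0 := by
          rcases Nat.eq_zero_or_pos a with h | h
          · left; rw [hzdef, h]; simp
          · right
            rw [hzdef]
            obtain ⟨a', rfl⟩ : ∃ a', a = a' + 1 := ⟨a - 1, by omega⟩
            rw [pow_succ]; omega
        refine low_e0_f1 q P A' A'' P' N z w (q ^ d') (2 * 2 ^ (k - a)) hq3 hqodd hA' hP hPP' hAA
          hpN hN4 ⟨k + 1, hNdef⟩ hz1 hzpar hNeven hw1 h2z h2w hNz (by linarith) hF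
          (one_le_pow₀ (by linarith)) ?_ ?_
        · rw [← pow_succ']; exact hFP
        · rw [eq]; ring
    · -- b = 1
      subst hb
      rw [pow_one] at hdvdb
      obtain ⟨M, hM⟩ := hdvdb
      have hNM : N = 1 + q * M := by linarith
      have hM1 : 1 ≤ M := by
        by_contra hcon
        have : M ≤ 0 := by omega
        nlinarith
      have hMo : M % 2 = 1 := by
        by_contra hcon
        have hM0 : M % 2 = 0 := by omega
        obtain ⟨M', hM'⟩ : ∃ M', M = 2 * M' := ⟨M / 2, by omega⟩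
        have h9 : N = 1 + 2 * (q * M') := by rw [hNM, hM']; ring
        omega
      obtain ⟨d', rfl⟩ : ∃ d', d = d' + 1 := ⟨d - 1, by omega⟩
      have eqM : M * (P + A') = P + z + w * q ^ d' := by
        have h1 : q * (M * (P + A')) = q * (P + z + w * q ^ d') := by
          calc q * (M * (P + A')) = (q * M) * (P + A') := by ring
            _ = (N - 1) * (P + A') := by rw [hM]
            _ = q * P + z * q ^ 1 + w * q ^ (d' + 1) := eq
            _ = q * (P + z + w * q ^ d') := by ring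
        exact mul_left_cancel₀ hq0.ne' h1
      rcases Nat.eq_zero_or_pos d' with hd0 | hd0
      · exfalso
        subst hd0
        have hac := hne rfl
        have h2zw : 2 * z ≤ w := by
          rw [hzdef, hwdef]
          calc (2 : ℤ) * 2 ^ a = 2 ^ (a + 1) := by ring
            _ ≤ 2 ^ c := pow_le_pow_right₀ (by norm_num) (by omega)
        exact low_e1_f1 q P A' N M z w hq3 hA' hP hM1 hMo hNM hN4 (by linarith)
          (by rw [eqM]; ring)
      · obtain ⟨d'', rfl⟩ : ∃ d'', d' = d'' + 1 := ⟨d' - 1, by omega⟩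
        have hz3 : z ≠ 3 := by
          intro h
          rw [hzdef] at h
          rcases Nat.eq_zero_or_pos a with h' | h'
          · subst h'; norm_num at h
          · obtain ⟨a', rfl⟩ : ∃ a', a = a' + 1 := ⟨a - 1, by omega⟩
            rw [pow_succ] at h; omega
        have hF' : q ^ d'' = 1 ∨ q ∣ q ^ d'' := by
          rcases Nat.eq_zero_or_pos d'' with h | h
          · left; rw [h]; simp
          · right; exact dvd_pow_self q (by omega)
        have key := low_e1_f2 q P A' A'' P' N M z w (q ^ (d'' + 1)) (q ^ d'') hq3 hA' hP hM1 hMo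
          hNM hN4 hPP' hAA hdich'' hz1 hw1 hz3 h2z h2w ⟨2 * 2 ^ (k - a), by rw [hNz]; ring⟩
          (by ring) hF' (by rw [← pow_succ']; exact hFP) (one_le_pow₀ (by linarith)) eqM
        obtain ⟨hk1, hk2⟩ := key
        refine ⟨?_, by linarith⟩
        rw [hPdef] at hk1
        have h1 : 1 < q := by linarith
        have := pow_right_injective₀ (a := q) (by linarith) (by linarith) hk1
        omega
    · -- b ≥ 2
      exfalso
      have h1 : q ^ 2 ∣ N - 1 := dvd_trans (pow_dvd_pow q hb) hdvdb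
      have h2 := Int.le_of_dvd (by linarith) h1
      have hq3' : q = 3 := by nlinarith
      rw [hq3'] at h1 hN4
      rw [hNdef] at h1 hN4
      have hk4 : k + 1 < 4 := by
        by_contra hcon
        have : (2 : ℤ) ^ 4 ≤ 2 ^ (k + 1) := pow_le_pow_right₀ (by norm_num) (by omega)
        linarith
      have hk3 : k < 3 := by omega
      interval_cases k <;> norm_num at h1
  · -- d = n + 3
    exfalso
    have hd3 : d = n + 3 := by omega
    subst hd3
    rw [hpm] at eq
    rcases Nat.eq_or_lt_of_le hbd with hb | hb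
    · -- b = n + 3
      have hac := hne hb
      subst hb
      rw [hpm] at eq
      have hwI : w = 2 * 2 ^ (c - a - 1) * z := by
        rw [hwdef, hzdef]
        have : c = 1 + (c - a - 1) + a := by omega
        conv_lhs => rw [this]
        rw [pow_add, pow_add]
        ring
      exact case_mm q P A' N z w (2 ^ (c - a - 1)) (2 ^ (k - c)) hq3 hqodd hA' hP hz1
        (one_le_pow₀ (by norm_num)) hwI hNw (by rw [eq]; ring)
    · obtain ⟨u, h', hu, hh', hJ, hhw, hAu, hN'⟩ :=
        case_m_facts q P A' N z w (2 ^ (k - c)) (q ^ b) hq3 hqodd hA' hP hz1 hw1 hE1 hNw eq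
      rcases Nat.eq_or_lt_of_le (by omega : b ≤ n + 2) with hb2 | hb2
      · -- b = n + 2
        subst hb2
        rw [← hPdef] at eq
        have hzw : z ≤ w ∨ ∃ G', 1 ≤ G' ∧ z = 2 * G' * w := by
          rcases Nat.lt_or_ge c a with hca | hca
          · right
            refine ⟨2 ^ (a - c - 1), one_le_pow₀ (by norm_num), ?_⟩
            rw [hwdef, hzdef]
            have : a = 1 + (a - c - 1) + c := by omega
            conv_lhs => rw [this]
            rw [pow_add, pow_add]
            ring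
          · left
            rw [hwdef, hzdef]
            exact pow_le_pow_right₀ (by norm_num) hca
        exact case_m_mid q P A' N z w (2 ^ (k - c)) h' (2 ^ (k - a)) hq3 hqodd hdich hA' hP hw1 hz1
          hJ hh' hNw hNz hZ1 hzw eq
      · -- b ≤ n + 1
        have hEP : q * q ^ b ≤ P := by
          rw [← pow_succ', hPdef]
          exact pow_le_pow_right₀ (by linarith) (by omega)
        obtain ⟨hup, hwp, hNp⟩ := case_m_low_bound q P A' N z w (q ^ b) u h' hq3 hA' hP hw1 hE1 hEP
          h2z hu hh' hhw hAu hN'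
        rcases (by omega : b = 0 ∨ b = 1 ∨ 2 ≤ b) with hb0 | hb0 | hb0
        · subst hb0
          exact case_m_e0 q P A' N z w u hq3 hA' hP h2z hu (by rw [hAu]; ring) hwp hNp
        · subst hb0
          exact case_m_e1 q P A' N z w u hq3 hdich hw1 hu h2z hN' (by rw [hAu]; ring) hup hwp hNp
        · have hdvdb : q ^ b ∣ N - 1 := by
            apply coprime_dvd q P A' N b hP
            rw [eq]
            have h1 : q ^ b ∣ q * P := by
              rw [hPdef, ← pow_succ']
              exact pow_dvd_pow q (by omega)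
            have h3 : q ^ b ∣ z * q ^ b := Dvd.intro_left z rfl
            exact dvd_add (dvd_add h1 h3) (Dvd.dvd.mul_left h1 w)
          have h1 : q ^ 2 ∣ N - 1 := dvd_trans (pow_dvd_pow q hb0) hdvdb
          have h2 := Int.le_of_dvd (by linarith) h1
          linarith

end Pool.Agent.Work.MP_24a6f7_nt
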